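import Pool.Agent.X47.QF6

set_option autoImplicit false

/-!
# MP_472c23_co: exactly when the ratios `P_{i,n}` have nonnegative coefficients

`P_{1,n}`, `P_{2,n}`, `P_{3,n}` (`n ≥ 1`) are polynomials with nonnegative coefficients, and so are
`P_{4,n}`, `P_{5,n}` for `n ≥ 2` with `n ≢ 1 (mod 9)`. For `n ≡ 1 (mod 9)`, `n ≥ 10`, the ratios
`P_{4,n}` and `P_{5,n}` are not polynomials (the cyclotomic polynomial `Φ_9` is left in the
denominator, since `9` divides `2n+7`), and their power series have negative coefficients.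

The nonnegativity is proved with weighted complete intersections, see
`Pool.Agent.TH416.CI.ci_main` of the starting library and `Pool.Agent.X47.QF`.
-/

namespace Pool.Agent.Results.MP_472c23_co.ExactRange

open Polynomial

/-- `[m]! = (1 - X) (1 - X ^ 2) ⋯ (1 - X ^ m)`. -/
noncomputable def qfac (m : ℕ) : ℤ[X] := ∏ i ∈ Finset.Icc 1 m, (1 - X ^ i)

/-- The numerator of `P_{i,n}`. -/
noncomputable def num (i n : ℕ) : ℤ[X] :=
  match i with
  | 1 => (1 - X) * (qfac (6 * n) * qfac n)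
  | 2 => (1 - X ^ 3) * (qfac (6 * n) * qfac n)
  | 3 => (1 - X) * (1 - X ^ 3) * (qfac (6 * n) * qfac n)
  | 4 => (1 - X ^ 3) * (1 - X ^ 5) * (1 - X ^ 7) * (qfac (6 * n) * qfac n)
  | _ => (1 - X ^ 3) ^ 2 * (1 - X ^ 5) * (1 - X ^ 7) * (qfac (6 * n) * qfac n)

/-- The denominator of `P_{i,n}`. -/
noncomputable def den (i n : ℕ) : ℤ[X] :=
  match i with
  | 1 => (1 - X ^ (2 * n + 1)) * (qfac (3 * n) * qfac (2 * n) ^ 2)
  | 2 => (1 - X ^ (2 * n + 3)) * (qfac (3 * n) * qfac (2 * n) ^ 2)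
  | 3 => (1 - X ^ (2 * n + 1)) * (1 - X ^ (2 * n + 3)) * (qfac (3 * n) * qfac (2 * n) ^ 2)
  | 4 => (1 - X ^ (2 * n + 3)) * (1 - X ^ (2 * n + 5)) * (1 - X ^ (2 * n + 7)) *
      (qfac (3 * n) * qfac (2 * n) ^ 2)
  | _ => (1 - X ^ (2 * n + 1)) * (1 - X ^ (2 * n + 3)) * (1 - X ^ (2 * n + 5)) *
      (1 - X ^ (2 * n + 7)) * (qfac (3 * n) * qfac (2 * n) ^ 2)

/-- `P_{i,n}` is a polynomial with nonnegative integer coefficients. -/
def NonnegPoly (i n : ℕ) : Prop :=
  ∃ P : ℤ[X], (∀ k, 0 ≤ P.coeff k) ∧ num i n = P * den i n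

/-- `P_{i,n}` is a polynomial (with rational coefficients). -/
def IsPoly (i n : ℕ) : Prop :=
  ∃ P : ℚ[X], (num i n).map (Int.castRingHom ℚ) = P * (den i n).map (Int.castRingHom ℚ)

/-- The power series of `P_{i,n}` has integer coefficients, one of which is negative. -/
def HasNegativeCoeff (i n : ℕ) : Prop :=
  ∃ S : PowerSeries ℤ, (num i n : PowerSeries ℤ) = S * (den i n : PowerSeries ℤ) ∧
    ∃ m, PowerSeries.coeff m S < 0

theorem coeff_zero_one_sub (i : ℕ) (hi : 0 < i) : (1 - X ^ i : ℤ[X]).coeff 0 = 1 := by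
  simp [hi.ne]

theorem qfac_coeff_zero (m : ℕ) : (qfac m).coeff 0 = 1 := by
  induction m with
  | zero => simp [qfac]
  | succ m ih =>
    have h : qfac (m + 1) = qfac m * (1 - X ^ (m + 1)) := Pool.Agent.X47.QF.qfac_succ m
    rw [h, mul_coeff_zero, ih, coeff_zero_one_sub _ (by omega), mul_one]

open Pool.Agent.X47.QF in
theorem small (c e : List ℕ) (P : List ℤ) (a b d : ℕ)
    (h : chk P (c ++ (rg a ++ rg b)) (e ++ (rg d ++ (rg (2 * b) ++ rg (2 * b)))) = true) :
    ∃ P : ℤ[X], (∀ k, 0 ≤ P.coeff k) ∧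
      (c.map (fun w => (1 : ℤ[X]) - X ^ w)).prod * (qfac a * qfac b) =
        P * ((e.map (fun w => (1 : ℤ[X]) - X ^ w)).prod * (qfac d * qfac (2 * b) ^ 2)) := by
  have h1 := of_chk P _ _ h
  simp only [List.map_append, List.prod_append, prod_rg] at h1
  rw [pow_two]
  exact h1

open Pool.Agent.X47.QF in
/-- **The answer to Q1.** -/
theorem result :
    (∀ n : ℕ, 1 ≤ n → NonnegPoly 1 n ∧ NonnegPoly 2 n ∧ NonnegPoly 3 n) ∧
    (∀ n : ℕ, 2 ≤ n → n % 9 ≠ 1 → NonnegPoly 4 n ∧ NonnegPoly 5 n) ∧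
    (∀ n : ℕ, 2 ≤ n → n % 9 = 1 →
      (¬ IsPoly 4 n ∧ HasNegativeCoeff 4 n) ∧ (¬ IsPoly 5 n ∧ HasNegativeCoeff 5 n)) := by
  refine ⟨fun n hn => ⟨P1 n hn, ?_, ?_⟩, fun n hn hn9 => ⟨?_, ?_⟩, fun n hn hn9 => ?_⟩
  · rcases Nat.lt_or_ge n 3 with h3 | h3
    · interval_cases n
      · obtain ⟨P, hP, h⟩ := small [3] [5] _ 6 1 3 p2_1
        exact ⟨P, hP, by simpa [num, den] using h⟩
      · obtain ⟨P, hP, h⟩ := small [3] [7] _ 12 2 6 p2_2
        exact ⟨P, hP, by simpa [num, den] using h⟩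
    · exact P2' n h3
  · rcases Nat.lt_or_ge n 3 with h3 | h3
    · interval_cases n
      · obtain ⟨P, hP, h⟩ := small [1, 3] [3, 5] _ 6 1 3 p3_1
        exact ⟨P, hP, by simpa [num, den] using h⟩
      · obtain ⟨P, hP, h⟩ := small [1, 3] [5, 7] _ 12 2 6 p3_2
        exact ⟨P, hP, by simpa [num, den] using h⟩
    · exact P3' n h3
  · rcases Nat.lt_or_ge n 7 with h7 | h7
    · interval_cases n
      · obtain ⟨P, hP, h⟩ := small [3, 5, 7] [7, 9, 11] _ 12 2 6 p4_2
        exact ⟨P, hP, by simpa [num, den, mul_assoc] using h⟩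
      · obtain ⟨P, hP, h⟩ := small [3, 5, 7] [9, 11, 13] _ 18 3 9 p4_3
        exact ⟨P, hP, by simpa [num, den, mul_assoc] using h⟩
      · obtain ⟨P, hP, h⟩ := small [3, 5, 7] [11, 13, 15] _ 24 4 12 p4_4
        exact ⟨P, hP, by simpa [num, den, mul_assoc] using h⟩
      · obtain ⟨P, hP, h⟩ := small [3, 5, 7] [13, 15, 17] _ 30 5 15 p4_5
        exact ⟨P, hP, by simpa [num, den, mul_assoc] using h⟩
      · obtain ⟨P, hP, h⟩ := small [3, 5, 7] [15, 17, 19] _ 36 6 18 p4_6
        exact ⟨P, hP, by simpa [num, den, mul_assoc] using h⟩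
    · exact P4' n h7 hn9
  · rcases Nat.lt_or_ge n 7 with h7 | h7
    · interval_cases n
      · obtain ⟨P, hP, h⟩ := small [3, 3, 5, 7] [5, 7, 9, 11] _ 12 2 6 p5_2
        exact ⟨P, hP, by simpa [num, den, mul_assoc, pow_two] using h⟩
      · obtain ⟨P, hP, h⟩ := small [3, 3, 5, 7] [7, 9, 11, 13] _ 18 3 9 p5_3
        exact ⟨P, hP, by simpa [num, den, mul_assoc, pow_two] using h⟩
      · obtain ⟨P, hP, h⟩ := small [3, 3, 5, 7] [9, 11, 13, 15] _ 24 4 12 p5_4
        exact ⟨P, hP, by simpa [num, den, mul_assoc, pow_two] using h⟩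
      · obtain ⟨P, hP, h⟩ := small [3, 3, 5, 7] [11, 13, 15, 17] _ 30 5 15 p5_5
        exact ⟨P, hP, by simpa [num, den, mul_assoc, pow_two] using h⟩
      · obtain ⟨P, hP, h⟩ := small [3, 3, 5, 7] [13, 15, 17, 19] _ 36 6 18 p5_6
        exact ⟨P, hP, by simpa [num, den, mul_assoc, pow_two] using h⟩
    · exact P5' n h7 hn9
  · have hF : ∀ m : ℕ, qfac m = Pool.Agent.X47.QF.qfac m := fun m => rfl
    have hq : ∀ m : ℕ, Pool.Agent.X47.QF.qfac m ≠ 0 := qfac_ne
    have ho : ∀ i : ℕ, 0 < i → (1 - X ^ i : ℤ[X]) ≠ 0 := one_sub_ne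
    have hn7 : 7 ≤ n := by omega
    have hnp4 : ¬ IsPoly 4 n := by
      refine not_poly_of (N := num 4 n) (Q := den 4 n) ?_ ?_ ?_
      · simp only [num, hF]
        exact mul_ne_zero (mul_ne_zero (mul_ne_zero (ho _ (by norm_num)) (ho _ (by norm_num)))
          (ho _ (by norm_num))) (mul_ne_zero (hq _) (hq _))
      · simp only [den, hF]
        exact mul_ne_zero (mul_ne_zero (mul_ne_zero (ho _ (by omega)) (ho _ (by omega)))
          (ho _ (by omega))) (mul_ne_zero (hq _) (pow_ne_zero _ (hq _)))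
      · simp only [num, den, hF, pow_two]
        rw [rm_mul (mul_ne_zero (mul_ne_zero (ho _ (by norm_num)) (ho _ (by norm_num)))
            (ho _ (by norm_num))) (mul_ne_zero (hq _) (hq _)),
          rm_mul (mul_ne_zero (ho _ (by norm_num)) (ho _ (by norm_num))) (ho _ (by norm_num)),
          rm_mul (ho _ (by norm_num)) (ho _ (by norm_num)), rm_mul (hq _) (hq _),
          rm_mul (mul_ne_zero (mul_ne_zero (ho _ (by omega)) (ho _ (by omega)))
            (ho _ (by omega))) (mul_ne_zero (hq _) (mul_ne_zero (hq _) (hq _))),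
          rm_mul (mul_ne_zero (ho _ (by omega)) (ho _ (by omega))) (ho _ (by omega)),
          rm_mul (ho _ (by omega)) (ho _ (by omega)), rm_mul (hq _) (mul_ne_zero (hq _) (hq _)),
          rm_mul (hq _) (hq _), rm_one _ (by norm_num), rm_one _ (by norm_num),
          rm_one _ (by norm_num), rm_one _ (by omega), rm_one _ (by omega), rm_one _ (by omega),
          rm_qfac, rm_qfac, rm_qfac, rm_qfac]
        split_ifs <;> omega
    have hnp5 : ¬ IsPoly 5 n := by
      refine not_poly_of (N := num 5 n) (Q := den 5 n) ?_ ?_ ?_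
      · simp only [num, hF]
        exact mul_ne_zero (mul_ne_zero (mul_ne_zero (pow_ne_zero _ (ho _ (by norm_num)))
          (ho _ (by norm_num))) (ho _ (by norm_num))) (mul_ne_zero (hq _) (hq _))
      · simp only [den, hF]
        exact mul_ne_zero (mul_ne_zero (mul_ne_zero (mul_ne_zero (ho _ (by omega))
          (ho _ (by omega))) (ho _ (by omega))) (ho _ (by omega)))
          (mul_ne_zero (hq _) (pow_ne_zero _ (hq _)))
      · simp only [num, den, hF, pow_two]
        rw [rm_mul (mul_ne_zero (mul_ne_zero (mul_ne_zero (ho _ (by norm_num))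
            (ho _ (by norm_num))) (ho _ (by norm_num)))
            (ho _ (by norm_num))) (mul_ne_zero (hq _) (hq _)),
          rm_mul (mul_ne_zero (mul_ne_zero (ho _ (by norm_num)) (ho _ (by norm_num)))
            (ho _ (by norm_num))) (ho _ (by norm_num)),
          rm_mul (mul_ne_zero (ho _ (by norm_num)) (ho _ (by norm_num))) (ho _ (by norm_num)),
          rm_mul (ho _ (by norm_num)) (ho _ (by norm_num)), rm_mul (hq _) (hq _),
          rm_mul (mul_ne_zero (mul_ne_zero (mul_ne_zero (ho _ (by omega)) (ho _ (by omega)))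
            (ho _ (by omega))) (ho _ (by omega))) (mul_ne_zero (hq _) (mul_ne_zero (hq _) (hq _))),
          rm_mul (mul_ne_zero (mul_ne_zero (ho _ (by omega)) (ho _ (by omega)))
            (ho _ (by omega))) (ho _ (by omega)),
          rm_mul (mul_ne_zero (ho _ (by omega)) (ho _ (by omega))) (ho _ (by omega)),
          rm_mul (ho _ (by omega)) (ho _ (by omega)), rm_mul (hq _) (mul_ne_zero (hq _) (hq _)),
          rm_mul (hq _) (hq _), rm_one _ (by norm_num), rm_one _ (by norm_num),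
          rm_one _ (by norm_num), rm_one _ (by omega), rm_one _ (by omega), rm_one _ (by omega),
          rm_one _ (by omega), rm_qfac, rm_qfac, rm_qfac, rm_qfac]
        split_ifs <;> omega
    have hint : ∀ i, ¬ IsPoly i n → ¬ ∃ P : ℤ[X], num i n = P * den i n := by
      rintro i hi ⟨P, hP⟩
      exact hi ⟨P.map (Int.castRingHom ℚ), by rw [hP, Polynomial.map_mul]⟩
    obtain ⟨T, hT⟩ := T4 n hn7
    obtain ⟨T', hT'⟩ := T5 n hn7
    refine ⟨⟨hnp4, neg_of _ _ T ?_ hT (hint 4 hnp4)⟩, ⟨hnp5, neg_of _ _ T' ?_ hT' (hint 5 hnp5)⟩⟩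
    · simp only [den, mul_coeff_zero, pow_two, qfac_coeff_zero, coeff_zero_one_sub _
        (Nat.succ_pos _), mul_one]
    · simp only [den, mul_coeff_zero, pow_two, qfac_coeff_zero, coeff_zero_one_sub _
        (Nat.succ_pos _), mul_one]

end Pool.Agent.Results.MP_472c23_co.ExactRange
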